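import Pool.Agent.Helper17.Rg.Goals

/-! Packet RG-MESH: the Subspace theorem with variable exponents -/

set_option autoImplicit false

open NumberField Pool.Agent.Helper92.Ru Pool.Agent.Helper17.Rg

namespace Pool.Agent.Helper31.Rg

theorem subY (h : SSTint) : SubY := by
  classical
  intro k _ _ T N hN A hA B δ hδ
  set m : ℝ := (Fintype.card (SP k T) : ℝ) * N with hm
  have hm0 : 0 ≤ m := by positivity
  set η : ℝ := δ / (2 * (m + 1)) with hη
  have hη0 : 0 < η := by positivity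
  set H : ℤ := ⌈|B| / η⌉ + 1 with hH
  have key : ∀ f : SP k T → Fin N → ℤ, ∃ (Q0 : ℝ) (F : Finset (Submodule k (Fin N → k))),
      1 ≤ Q0 ∧ (∀ W ∈ F, W ≠ ⊤) ∧ (∑ v, ∑ i, η * (f v i : ℝ) < 0 →
      ∀ Q : ℝ, Q0 ≤ Q → ∀ x : Fin N → k,
        InBox A (wQ Q (fun v i => η * (f v i : ℝ))) x → ∃ W ∈ F, x ∈ W) := by
    intro f
    by_cases hf : ∑ v, ∑ i, η * (f v i : ℝ) < 0
    · obtain ⟨Q0, F, h1, h2, h3⟩ := h k T N hN A hA (fun v i => η * (f v i : ℝ)) hf
      exact ⟨Q0, F, h1, h2, fun _ => h3⟩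
    · exact ⟨1, ∅, le_rfl, by simp, fun h => absurd h hf⟩
  choose q F hq hF hbox using key
  let S : Finset (SP k T → Fin N → ℤ) :=
    Fintype.piFinset (fun _ => Fintype.piFinset (fun _ => Finset.Icc (-H) H))
  have hqS : ∀ f ∈ S, q f ≤ ∑ g ∈ S, q g := fun f hf =>
    Finset.single_le_sum (f := q) (fun g _ => le_trans zero_le_one (hq g)) hf
  have hsum0 : 0 ≤ ∑ g ∈ S, q g := Finset.sum_nonneg (fun g _ => le_trans zero_le_one (hq g))
  refine ⟨2 + ∑ f ∈ S, q f, S.biUnion F, by linarith, ?_, ?_⟩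
  · intro W hW
    rw [Finset.mem_biUnion] at hW
    obtain ⟨f, _, hf⟩ := hW
    exact hF f W hf
  · intro Q hQ x hx y hyB hyQ hys
    have hQ1 : 1 ≤ Q := by linarith
    let f : SP k T → Fin N → ℤ := fun v i => ⌈y v i / η⌉
    have hf1 : ∀ v i, y v i ≤ η * (f v i : ℝ) := by
      intro v i
      have := Int.le_ceil (y v i / η)
      rw [div_le_iff₀ hη0] at this
      linarith [this, mul_comm η ((⌈y v i / η⌉ : ℤ) : ℝ)]
    have hf2 : ∀ v i, η * (f v i : ℝ) ≤ y v i + η := by
      intro v i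
      have := (Int.ceil_lt_add_one (y v i / η)).le
      have h2 : η * ((⌈y v i / η⌉ : ℤ) : ℝ) ≤ η * (y v i / η + 1) :=
        mul_le_mul_of_nonneg_left this hη0.le
      have h3 : η * (y v i / η + 1) = y v i + η := by
        field_simp
      simpa [f] using h2.trans h3.le
    have hfS : f ∈ S := by
      simp only [S, Fintype.mem_piFinset, Finset.mem_Icc]
      intro v i
      have hb : |y v i / η| ≤ |B| / η := by
        rw [abs_div, abs_of_pos hη0]
        exact div_le_div_of_nonneg_right ((hyB v i).trans (le_abs_self B)) hη0.le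
      have hb' := abs_le.mp hb
      constructor
      · have h1 : (-(⌈|B| / η⌉ : ℤ) : ℝ) ≤ y v i / η := by
          have := Int.le_ceil (|B| / η)

          linarith [hb'.1]
        have h2 : (-(⌈|B| / η⌉ : ℤ) : ℝ) ≤ (⌈y v i / η⌉ : ℤ) := h1.trans (Int.le_ceil _)
        have h3 : -(⌈|B| / η⌉ : ℤ) ≤ (⌈y v i / η⌉ : ℤ) := by exact_mod_cast h2
        show -H ≤ ⌈y v i / η⌉
        omega
      · have h1 : (⌈y v i / η⌉ : ℤ) ≤ ⌈|B| / η⌉ := Int.ceil_le_ceil hb'.2
        show ⌈y v i / η⌉ ≤ H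
        omega
    have hcard : ∑ _v : SP k T, ∑ _i : Fin N, η = m * η := by
      simp [hm, mul_assoc]
    have hsum : ∑ v, ∑ i, η * (f v i : ℝ) < 0 := by
      calc ∑ v, ∑ i, η * (f v i : ℝ) ≤ ∑ v, ∑ i, (y v i + η) :=
            Finset.sum_le_sum fun v _ => Finset.sum_le_sum fun i _ => hf2 v i
        _ = ∑ v, ∑ i, y v i + m * η := by
            rw [← hcard]
            simp only [Finset.sum_add_distrib]
        _ ≤ -δ + m * η := by linarith
        _ < 0 := by
            have : m * η < δ := by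
              rw [hη, mul_div_assoc', div_lt_iff₀ (by positivity)]
              nlinarith
            linarith
    have hbx := hbox f hsum Q (by linarith [hqS f hfS]) x ⟨hx, fun v i => by
      refine (hyQ v i).trans ?_
      exact Real.rpow_le_rpow_of_exponent_le hQ1 (hf1 v i)⟩
    obtain ⟨W, hW, hxW⟩ := hbx
    exact ⟨W, Finset.mem_biUnion.mpr ⟨f, hfS, hW⟩, hxW⟩

end Pool.Agent.Helper31.Rg
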